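import Pool.Agent.X55.Fam.Win

/-!
# The almost prime analogue of `ρ(k) = max_m h_m(k)` at discrete logarithms

Let `k ≥ 1` and let `K = max_m h_m(k)` be the maximal number of the integers without prime factors up to `k` in windows
`(m, m + k]`; the set `T ⊆ (0, k]` of the positions of these integers in a window with the maximal number `K` is called
extremal. Let `P` be a large prime and `g` a primitive root of `P`. For EVERY extremal `T` there are windows `(n, n + k]`
whose positions of almost primes (with a bounded number of prime factors, all greater than `P ^ δ`) are exactly the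
elements of `T`, in the right order of magnitude, and the number of windows with `K` primes is at most of this order; no
window at all contains more than `K` of these almost primes. Here `n` runs over the exponents
* for which the residue of `g ^ n` modulo `P` lies in a given interval (so that `n` is the discrete logarithm of an
  element of an interval); the exponents run over any interval of a length `H < P`, the residues over any interval of a
  length `L ≤ P`, with `H L ≥ P ^ (3 / 2 + ε)`;
* for which `g ^ n + s` lies in a given coset of a subgroup `S` of the residues, where `|S| H ≥ P ^ (3 / 2 + ε)`;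
* for which `g ^ n + s` is again a primitive root, in the intervals of a length `H` with `P ^ (1 / 2 + ε) ≤ H < P`.

The proof combines a sieve which is uniform in the removed residue classes and estimates of the multiplicative
characters over intervals and over shifted subgroups.
-/

set_option autoImplicit false

namespace Pool.Agent.Results.MP_cbf366_nt.DiscreteLogarithms

open Finset Pool.Agent.X55.Forms

open Classical in
/-- `h_m(k)`: the number of the integers `n` with `m < n ≤ m + k` without a prime factor `p ≤ k` -/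
noncomputable def h (m k : ℕ) : ℕ := ((Ioc m (m + k)).filter (fun n => ∀ p : ℕ, p.Prime → p ≤ k → ¬ p ∣ n)).card

open Classical in
/-- the `t ∈ (0, k]` for which `m + t` has no prime factor `p ≤ k` -/
noncomputable def unsifted (m k : ℕ) : Finset ℕ :=
  (Ioc 0 k).filter (fun t => ∀ p : ℕ, p.Prime → p ≤ k → ¬ p ∣ m + t)

/-- `T` is the set of the unsifted positions of an interval with the maximal number `h_m(k)` -/
def Extremal (k : ℕ) (T : Finset ℕ) : Prop := (∃ m : ℕ, unsifted m k = T) ∧ ∀ m : ℕ, h m k ≤ T.card

/-- The bounds for the windows `(n, n + k]` at the `n` in `(M, M + H]` with the property `R`, with the expected number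
`X`: if `M + H ≤ P ^ B`, then for every extremal `T` the positions of the integers with at most `r` prime factors, all
greater than `P ^ δ`, in the window are the elements of `T`, for at least `c X / log ^ K P` of the `n`; and (always) for at
most `C X / log ^ K P` of the `n ≥ k` the window contains at least `K` primes. -/
def WindowBounds (k K P r : ℕ) (δ c C : ℝ) (B M H : ℕ) (R : ℕ → Prop) (X : ℝ) : Prop :=
  (M + H ≤ P ^ B → ∀ T : Finset ℕ, Extremal k T → c * X / Real.log P ^ K ≤
    Set.ncard {n : ℕ | M < n ∧ n ≤ M + H ∧ R n ∧ positions r ((P : ℝ) ^ δ) k n = T}) ∧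
  (Set.ncard {n : ℕ | M < n ∧ n ≤ M + H ∧ R n ∧ k ≤ n ∧ K ≤ (primePositions k n).card} : ℝ) ≤
    C * X / Real.log P ^ K

theorem h_eq (m k : ℕ) : (unsifted m k).card = h m k := by
  classical
  unfold unsifted h
  refine card_bij (fun t _ => m + t) ?_ ?_ ?_
  · intro t ht
    rw [mem_filter, mem_Ioc] at ht ⊢
    exact ⟨⟨by omega, by omega⟩, ht.2⟩
  · intro a _ b _ hab
    exact Nat.add_left_cancel hab
  · intro n hn
    rw [mem_filter, mem_Ioc] at hn
    refine ⟨n - m, ?_, by omega⟩
    rw [mem_filter, mem_Ioc, show m + (n - m) = n by omega]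
    exact ⟨⟨by omega, by omega⟩, hn.2⟩

theorem ext_iff (k : ℕ) (T : Finset ℕ) : Extremal k T ↔ Pool.Agent.X26.SV.Ext k T := by
  unfold Extremal Pool.Agent.X26.SV.Ext
  constructor
  · rintro ⟨h1, h2⟩
    exact ⟨h1, fun m => (h_eq m k).le.trans (h2 m)⟩
  · rintro ⟨h1, h2⟩
    exact ⟨h1, fun m => (h_eq m k).ge.trans (h2 m)⟩

/-- `K = max_m h_m(k)`; windows with exactly `K` almost primes at given extremal positions, and windows with `K`
primes, at structured exponents. -/
theorem result (k : ℕ) (hk : 1 ≤ k) : ∃ K : ℕ, (∃ m : ℕ, h m k = K) ∧ (∀ m : ℕ, h m k ≤ K) ∧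
    ∀ ε : ℝ, 0 < ε → ∀ B : ℕ, 1 ≤ B → ∃ (r : ℕ) (δ c C : ℝ) (P₀ : ℕ), 0 < δ ∧ 0 < c ∧ 0 < C ∧
      ∀ P : ℕ, P₀ ≤ P → ∀ [Fact P.Prime], (∀ n : ℕ, (positions r ((P : ℝ) ^ δ) k n).card ≤ K) ∧
      ∀ g : ZMod P, orderOf g = P - 1 → Logarithms ε P g (WindowBounds k K P r δ c C B) := by
  obtain ⟨T, hT⟩ := Pool.Agent.X26.SV.exists_ext k
  refine ⟨T.card, ?_, fun m => (h_eq m k).ge.trans (hT.2 m), fun ε hε B hB => ?_⟩
  · obtain ⟨m, hm⟩ := hT.1
    refine ⟨m, ?_⟩
    rw [← hm]
    exact (h_eq m k).symm
  obtain ⟨r, δ, c, C, P₀, hδ, hc, hC, h⟩ := winLogarithms k hk T hT ε hε B hB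
  refine ⟨r, δ, c, C, P₀, hδ, hc, hC, ?_⟩
  intro P hP _
  obtain ⟨h1, h2⟩ := h P hP
  refine ⟨fun n => positions_le hT h1, fun g hg => (h2 g hg).mono fun M H R X _ hQ => ?_⟩
  exact ⟨fun hMH T' hT' => hQ.1 hMH T' ((ext_iff k T').1 hT'), hQ.2⟩

end Pool.Agent.Results.MP_cbf366_nt.DiscreteLogarithms
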