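import Mathlib
import Pool.Agent.X26.SV.Ext

/-!
# The almost prime analogue of `ρ(k) = max_m h_m(k)`, in a strong form

Let `k ≥ 1`, and let `T ⊆ (0, k]` be the set of the positions of the `h_m(k)` unsifted integers of an interval
`(m, m + k]` for which `h_m(k)` is maximal. Let `θ > 0`. There is `j` such that for all large `x` no window `(n, n + k]`
contains more than `|T| = max_m h_m(k)` products of at most `j` primes `> x ^ (1 / j)`, and every interval of length
`X ≥ x ^ θ` in `[1, x]` contains at least `c X / log ^ |T| x` integers `n` for which these numbers in `(n, n + k]` are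
exactly the `n + t`, `t ∈ T`. Moreover common patterns of arbitrary dense sets `S_1, …, S_M` of such `n`, for arbitrary
extremal `T_1, …, T_M` and in arbitrary intervals: a positive proportion of the vectors `d ∈ [1, D] ^ m` serves for all
`i ≤ M` and all `F ⊆ {0, …, κ - 1} ^ m` containing `0` at once, with the order of magnitude predicted for primes.
-/

set_option autoImplicit false

namespace Pool.Agent.Results.MP_cbf366_nt.HoldsForAlmostPrimes

open Finset

open Classical in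
/-- `h_m(k)`: the number of the integers `n` with `m < n ≤ m + k` without a prime factor `p ≤ k` -/
noncomputable def h (m k : ℕ) : ℕ := ((Ioc m (m + k)).filter (fun n => ∀ p : ℕ, p.Prime → p ≤ k → ¬ p ∣ n)).card

open Classical in
/-- the `t ∈ (0, k]` for which `m + t` has no prime factor `p ≤ k` -/
noncomputable def unsifted (m k : ℕ) : Finset ℕ :=
  (Ioc 0 k).filter (fun t => ∀ p : ℕ, p.Prime → p ≤ k → ¬ p ∣ m + t)

/-- `T` is the set of the unsifted positions of an interval with the maximal number `h_m(k)` -/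
def Extremal (k : ℕ) (T : Finset ℕ) : Prop := (∃ m : ℕ, unsifted m k = T) ∧ ∀ m : ℕ, h m k ≤ T.card

/-- `N` is a product of at most `j` primes, all of them larger than `w` -/
def Almost (j : ℕ) (w : ℝ) (N : ℕ) : Prop :=
  N ≠ 0 ∧ N.primeFactorsList.length ≤ j ∧ ∀ q : ℕ, q.Prime → q ∣ N → w < q

open Classical in
/-- the `t ∈ (0, k]` for which `n + t` is a product of at most `j` primes, all of them larger than `x ^ (1 / j)` -/
noncomputable def positions (j x k n : ℕ) : Finset ℕ :=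
  (Ioc 0 k).filter (fun t => Almost j ((x : ℝ) ^ (1 / (j : ℝ))) (n + t))

open Classical in
/-- the `n ∈ (y, y + X]` with `positions j x k n = T` -/
noncomputable def Win (j x k : ℕ) (T : Finset ℕ) (y X : ℕ) : Finset ℕ :=
  (Ioc y (y + X)).filter (fun n => positions j x k n = T)

/-- The number of the residue classes modulo `q` occupied by `T`. -/
def nu (T : Finset ℤ) (q : ℕ) : ℕ := (T.image (fun t : ℤ => t % q)).card

/-- The local factor `(1 - ν(q) / q) (1 - 1 / q) ^ (-|T|)`. -/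
noncomputable def loc (T : Finset ℤ) (q : ℕ) : ℝ := (1 - (nu T q : ℝ) / q) / (1 - 1 / (q : ℝ)) ^ T.card

/-- The singular series, the product of the local factors over all primes. -/
noncomputable def Sing (T : Finset ℤ) : ℝ := ∏' q : Nat.Primes, loc T q

/-- The set of the integers `t + ∑ f_i d_i`, `t ∈ T`, `f ∈ F`. -/
def sumSet {m : ℕ} (T : Finset ℕ) (d : Fin m → ℕ) (F : Finset (Fin m → ℕ)) : Finset ℤ :=
  ((T.image (fun t : ℕ => (t : ℤ))) ×ˢ F).image (fun p : ℤ × (Fin m → ℕ) => p.1 + ((∑ i, p.2 i * d i : ℕ) : ℤ))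

theorem h_eq (m k : ℕ) : (unsifted m k).card = h m k := by
  classical
  unfold unsifted h
  refine card_bij (fun t _ => m + t) ?_ ?_ ?_
  · intro t ht
    rw [mem_filter, mem_Ioc] at ht ⊢
    exact ⟨⟨by omega, by omega⟩, ht.2⟩
  · intro a _ b _ hab
    exact Nat.add_left_cancel hab
  · intro n hn
    rw [mem_filter, mem_Ioc] at hn
    refine ⟨n - m, ?_, by omega⟩
    rw [mem_filter, mem_Ioc, show m + (n - m) = n by omega]
    exact ⟨⟨by omega, by omega⟩, hn.2⟩

theorem h_le (m k : ℕ) : h m k ≤ k := by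
  classical
  rw [← h_eq]
  unfold unsifted
  refine (card_filter_le _ _).trans ?_
  rw [Nat.card_Ioc]
  omega

theorem exists_extremal (k : ℕ) : ∃ T, Extremal k T := by
  obtain ⟨m, hm⟩ : ∃ m : ℕ, ∀ m', h m' k ≤ h m k := by
    have h1 : (Set.range fun m => h m k).Nonempty := ⟨h 0 k, 0, rfl⟩
    have h2 : BddAbove (Set.range fun m => h m k) := ⟨k, by rintro _ ⟨m, rfl⟩; exact h_le m k⟩
    obtain ⟨m, hm⟩ := Nat.sSup_mem h1 h2
    refine ⟨m, fun m' => ?_⟩
    change h m k = _ at hm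
    rw [hm]
    exact le_csSup h2 ⟨m', rfl⟩
  exact ⟨unsifted m k, ⟨m, rfl⟩, fun m' => by rw [h_eq]; exact hm m'⟩

theorem ext_sub {k : ℕ} {T : Finset ℕ} (hT : Extremal k T) : T ⊆ Ioc 0 k := by
  classical
  obtain ⟨⟨m, rfl⟩, _⟩ := hT
  unfold unsifted
  exact filter_subset _ _

theorem ext_adm {k : ℕ} {T : Finset ℕ} (hT : Extremal k T) :
    Pool.Agent.Y843.AC.HL.Adm (Pool.Agent.X26.SV.iT T) := by
  classical
  have hsub := ext_sub hT
  obtain ⟨⟨m, hm⟩, _⟩ := hT
  intro q hq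
  unfold Pool.Agent.Y843.AC.HL.nu
  by_cases hqk : q ≤ k
  · have h1 : (Pool.Agent.X26.SV.iT T).image (fun t : ℤ => t % q) ⊆
        ((range q).image (fun a : ℕ => (a : ℤ))).erase ((-(m : ℤ)) % q) := by
      intro v hv
      rw [mem_image] at hv
      obtain ⟨t, ht, rfl⟩ := hv
      obtain ⟨s, hs, rfl⟩ := Pool.Agent.X26.SV.mem_iT.1 ht
      have hq0 : (0 : ℤ) < q := by exact_mod_cast hq.pos
      rw [mem_erase]
      constructor
      · intro hcon
        rw [← hm] at hs
        unfold unsifted at hs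
        rw [mem_filter] at hs
        apply hs.2 q hq hqk
        have h3 : (q : ℤ) ∣ -(m : ℤ) - (s : ℤ) := Int.ModEq.dvd hcon
        have h4 : (q : ℤ) ∣ ((m + s : ℕ) : ℤ) := by
          have e : ((m + s : ℕ) : ℤ) = -(-(m : ℤ) - (s : ℤ)) := by push_cast; ring
          rw [e, dvd_neg]
          exact h3
        exact_mod_cast h4
      · rw [mem_image]
        refine ⟨((s : ℤ) % q).toNat, ?_, ?_⟩
        · rw [mem_range]
          have h5 := Int.emod_lt_of_pos (s : ℤ) hq0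
          have h6 := Int.emod_nonneg (s : ℤ) hq0.ne'
          omega
        · exact Int.toNat_of_nonneg (Int.emod_nonneg _ hq0.ne')
    refine lt_of_le_of_lt (card_le_card h1) ?_
    have h2 : ((-(m : ℤ)) % q) ∈ (range q).image (fun a : ℕ => (a : ℤ)) := by
      have hq0 : (0 : ℤ) < q := by exact_mod_cast hq.pos
      rw [mem_image]
      refine ⟨((-(m : ℤ)) % q).toNat, ?_, ?_⟩
      · rw [mem_range]
        have h5 := Int.emod_lt_of_pos (-(m : ℤ)) hq0
        have h6 := Int.emod_nonneg (-(m : ℤ)) hq0.ne'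
        omega
      · exact Int.toNat_of_nonneg (Int.emod_nonneg _ hq0.ne')
    rw [card_erase_of_mem h2, card_image_of_injective _ Nat.cast_injective, card_range]
    exact Nat.sub_lt hq.pos one_pos
  · refine lt_of_le_of_lt card_image_le ?_
    rw [Pool.Agent.X26.SV.iT_card]
    have h1 := card_le_card hsub
    rw [Nat.card_Ioc] at h1
    omega

theorem pos_sub {j x k n : ℕ} (hx : (k : ℝ) ≤ (x : ℝ) ^ (1 / (j : ℝ))) : positions j x k n ⊆ unsifted n k := by
  classical
  intro t ht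
  unfold positions at ht
  unfold unsifted
  rw [mem_filter] at ht ⊢
  refine ⟨ht.1, fun p hp hpk hd => ?_⟩
  have h1 := ht.2.2.2 p hp hd
  have h2 : (p : ℝ) ≤ k := by exact_mod_cast hpk
  linarith

theorem pos_card {j x k n : ℕ} (hx : (k : ℝ) ≤ (x : ℝ) ^ (1 / (j : ℝ))) : (positions j x k n).card ≤ h n k := by
  rw [← h_eq]
  exact card_le_card (pos_sub hx)

theorem win_eq {j x k : ℕ} {T : Finset ℕ} {y X : ℕ} (hT : Extremal k T)
    (hx : (k : ℝ) ≤ (x : ℝ) ^ (1 / (j : ℝ))) :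
    Win j x k T y X = Pool.Agent.X26.MC.Rg j x (Pool.Agent.X26.SV.iT T) y X := by
  classical
  unfold Win Pool.Agent.X26.MC.Rg
  ext n
  rw [mem_filter, mem_filter]
  refine and_congr_right fun _ => ?_
  have e : ∀ t : ℕ, Pool.Agent.Y843.AC.HL.Alm j ((x : ℝ) ^ (1 / (j : ℝ))) ((n : ℤ) + (t : ℤ)) ↔
      Almost j ((x : ℝ) ^ (1 / (j : ℝ))) (n + t) := by
    intro t
    unfold Pool.Agent.Y843.AC.HL.Alm Almost
    rw [← Nat.cast_add, Int.natAbs_natCast]
    simp only [ne_eq, Nat.cast_eq_zero, Int.natCast_dvd_natCast]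
  constructor
  · intro h1 t ht
    obtain ⟨s, hs, rfl⟩ := Pool.Agent.X26.SV.mem_iT.1 ht
    rw [e]
    rw [← h1] at hs
    unfold positions at hs
    exact (mem_filter.1 hs).2
  · intro h1
    symm
    apply eq_of_subset_of_card_le
    · intro t ht
      unfold positions
      rw [mem_filter]
      exact ⟨ext_sub hT ht, (e t).1 (h1 t (Pool.Agent.X26.SV.mem_iT.2 ⟨t, ht, rfl⟩))⟩
    · exact (pos_card hx).trans (hT.2 n)

theorem large {j : ℕ} (hj : 1 ≤ j) {x k : ℕ} (hx : k ^ j ≤ x) : (k : ℝ) ≤ (x : ℝ) ^ (1 / (j : ℝ)) := by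
  have h1 : ((k : ℝ) ^ j) ≤ x := by exact_mod_cast hx
  have h2 : (k : ℝ) = ((k : ℝ) ^ j) ^ (1 / (j : ℝ)) := by
    rw [one_div, Real.pow_rpow_inv_natCast (Nat.cast_nonneg k) (by omega)]
  rw [h2]
  exact Real.rpow_le_rpow (by positivity) h1 (by positivity)

/-- There are extremal sets `T`, and they have the same number `H = max_m h_m(k)` of elements. For every
`θ > 0` there are `j ≥ 1` and `c₀ > 0` with:
1. for all large `x`: for all `n` at most `H` of the `t ∈ (0, k]` are in `positions j x k n`, and for all extremal `T` and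
  all windows `(y, y + X] ⊆ [1, x]` with `X ≥ x ^ θ` at least `c₀ X / log ^ H x` integers `n` in the window have
  `positions j x k n = T`;
2. for all `M`, `m`, `κ` and `δ > 0` there are `c > 0` and `B` such that for all large `x`, all extremal `T_1, …, T_M`,
  all `y_1, …, y_M`, all `X`, `D` with `x ^ θ ≤ X ≤ x` and `log ^ B x ≤ D ≤ X` and all sets `S_i ⊆ Win j x k T_i y_i X`
  with `|S_i| ≥ δ X / log ^ H x`, at least `c D ^ m` vectors `d` with entries in `[1, D]` have the following property: for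
  all `i` and all sets `F` of vectors with entries in `{0, ..., κ - 1}` which contain `0`, the set
  `T' = T_i + {∑ f_l d_l : f ∈ F}` consists of `H |F|` integers and misses a class modulo every prime, and for at least
  `c 𝔖(T') X / log ^ (H |F|) x` elements `n` of `S_i` all the `n + ∑ f_l d_l`, `f ∈ F`, are elements of `S_i`. -/
theorem result (k : ℕ) : ∃ H : ℕ, (∃ m : ℕ, h m k = H) ∧ (∀ m : ℕ, h m k ≤ H) ∧
    (∃ T, Extremal k T) ∧ (∀ T, Extremal k T → T.card = H) ∧
    ∀ θ : ℝ, 0 < θ → ∃ j : ℕ, 1 ≤ j ∧ ∃ c₀ : ℝ, 0 < c₀ ∧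
    (∃ x₀ : ℕ, ∀ x : ℕ, x₀ ≤ x → (∀ n : ℕ, (positions j x k n).card ≤ H) ∧
      ∀ T, Extremal k T → ∀ y X : ℕ, (x : ℝ) ^ θ ≤ X → y + X ≤ x →
        c₀ * (X / Real.log x ^ H) ≤ ((Win j x k T y X).card : ℝ)) ∧
    ∀ (M m κ : ℕ) (δ : ℝ), 0 < δ → ∃ c : ℝ, 0 < c ∧ ∃ B x₀ : ℕ, ∀ x : ℕ, x₀ ≤ x → ∀ T : Fin M → Finset ℕ,
      (∀ i, Extremal k (T i)) → ∀ (y : Fin M → ℕ) (X D : ℕ), (x : ℝ) ^ θ ≤ X → X ≤ x →
      Real.log x ^ B ≤ D → D ≤ X → ∀ S : Fin M → Finset ℕ, (∀ i, S i ⊆ Win j x k (T i) (y i) X) →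
      (∀ i, δ * (X / Real.log x ^ H) ≤ ((S i).card : ℝ)) →
      ∃ G : Finset (Fin m → ℕ), (∀ d ∈ G, ∀ l, 1 ≤ d l ∧ d l ≤ D) ∧ c * (D : ℝ) ^ m ≤ (G.card : ℝ) ∧
        ∀ d ∈ G, ∀ F : Finset (Fin m → ℕ), (∀ f ∈ F, ∀ l, f l < κ) → (fun _ => 0) ∈ F → ∀ i,
          (sumSet (T i) d F).card = H * F.card ∧ (∀ q : ℕ, q.Prime → nu (sumSet (T i) d F) q < q) ∧
          c * (Sing (sumSet (T i) d F) * (X / Real.log x ^ (H * F.card))) ≤
            (((S i).filter (fun n => ∀ f ∈ F, n + ∑ l, f l * d l ∈ S i)).card : ℝ) := by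
  classical
  obtain ⟨T₀, hT₀⟩ := exists_extremal k
  have hcard : ∀ T, Extremal k T → T.card = T₀.card := by
    intro T hT
    obtain ⟨m, hm⟩ := hT.1
    obtain ⟨m', hm'⟩ := hT₀.1
    apply le_antisymm
    · rw [← hm, h_eq]
      exact hT₀.2 m
    · rw [← hm', h_eq]
      exact hT.2 m'
  refine ⟨T₀.card, ?_, hT₀.2, ⟨T₀, hT₀⟩, hcard, fun θ hθ => ?_⟩
  · obtain ⟨m, hm⟩ := hT₀.1
    exact ⟨m, by rw [← hm, h_eq]⟩
  obtain ⟨j, hj, c₀, hc₀, ⟨x₁, h1⟩, h2⟩ := Pool.Agent.X26.SV.main k T₀.card hθ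
  refine ⟨j, hj, c₀, hc₀, ⟨max x₁ (k ^ j), fun x hx => ⟨fun n => ?_, fun T hT y X hX hyX => ?_⟩⟩, ?_⟩
  · exact (pos_card (large hj ((le_max_right _ _).trans hx))).trans (hT₀.2 n)
  · rw [win_eq hT (large hj ((le_max_right _ _).trans hx))]
    exact h1 x ((le_max_left _ _).trans hx) T (ext_sub hT) (hcard T hT) (ext_adm hT) y X hX hyX
  · intro M m κ δ hδ
    obtain ⟨c, hc, B, x₂, h3⟩ := h2 M m κ δ hδ
    refine ⟨c, hc, B, max x₂ (k ^ j), fun x hx T hT y X D hX hXx hBD hDX S hS hSc => ?_⟩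
    exact h3 x ((le_max_left _ _).trans hx) T (fun i => ⟨ext_sub (hT i), hcard _ (hT i), ext_adm (hT i)⟩)
      y X D hX hXx hBD hDX S (fun i => by
        have := hS i
        rwa [win_eq (hT i) (large hj ((le_max_right _ _).trans hx))] at this) hSc

end Pool.Agent.Results.MP_cbf366_nt.HoldsForAlmostPrimes
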