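import Pool.Agent.X119.MilWin

/-!
# Windows with the maximal number `max_m h_m(k)` of almost primes at all the numbers `⌊θ ^ (c ^ n)⌋`

Let `c > 1`, and prescribe for every `n` a length `k_n ≤ K` and the set `T_n ⊆ (0, k_n]` of the positions of the unsifted
integers of an interval for which `h_m(k_n)` is maximal. The `θ > 1` such that for all large `n` the integers of
`(N_n, N_n + k_n]` without a prime factor `≤ N_n ^ κ` are exactly the `N_n + t`, `t ∈ T_n`, where `N_n = ⌊θ ^ (c ^ n)⌋`, form a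
set of Hausdorff dimension at least `s(κ)` in each open set that meets `(1, ∞)`, where `s(κ) → 1` as `κ → 0`; with `κ`
depending on `θ` the dimension is `1`. So the maximal number of almost primes is attained, with prescribed positions, in
windows at all the numbers of doubly exponential sequences.

The input is the theorem `Pool.Agent.X37.RD.record_ap` of the library; the Cantor set argument is `Pool.Agent.X10.ML`.
-/

set_option autoImplicit false

namespace Pool.Agent.Results.MP_cbf366_nt.MillsSequences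

open Finset

open Classical in
/-- `h_m(k)`: the number of the integers `n` with `m < n ≤ m + k` without a prime factor `p ≤ k` -/
noncomputable def h (m k : ℕ) : ℕ := ((Ioc m (m + k)).filter (fun n => ∀ p : ℕ, p.Prime → p ≤ k → ¬ p ∣ n)).card

open Classical in
/-- the `t ∈ (0, k]` for which `m + t` has no prime factor `p ≤ k` -/
noncomputable def unsifted (m k : ℕ) : Finset ℕ :=
  (Ioc 0 k).filter (fun t => ∀ p : ℕ, p.Prime → p ≤ k → ¬ p ∣ m + t)

/-- `T` is the set of the unsifted positions of an interval with the maximal number `h_m(k)` -/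
def Extremal (k : ℕ) (T : Finset ℕ) : Prop := (∃ m : ℕ, unsifted m k = T) ∧ ∀ m : ℕ, h m k ≤ T.card

open Classical in
/-- the `t ∈ (0, k]` for which all prime factors of `m + t` are larger than `m ^ κ` -/
noncomputable def rough (κ : ℝ) (k m : ℕ) : Finset ℕ :=
  (Ioc 0 k).filter (fun t => ∀ p : ℕ, p.Prime → p ∣ m + t → (m : ℝ) ^ κ < p)

theorem h_eq (m k : ℕ) : (unsifted m k).card = h m k := by
  classical
  unfold unsifted h
  refine card_bij (fun t _ => m + t) ?_ ?_ ?_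
  · intro t ht
    rw [mem_filter, mem_Ioc] at ht ⊢
    exact ⟨⟨by omega, by omega⟩, ht.2⟩
  · intro a _ b _ hab
    exact Nat.add_left_cancel hab
  · intro n hn
    rw [mem_filter, mem_Ioc] at hn
    refine ⟨n - m, ?_, by omega⟩
    rw [mem_filter, mem_Ioc, show m + (n - m) = n by omega]
    exact ⟨⟨by omega, by omega⟩, hn.2⟩

theorem ext_iff (k : ℕ) (T : Finset ℕ) : Extremal k T ↔ Pool.Agent.X119.Mil.Ext k T := by
  unfold Extremal Pool.Agent.X119.Mil.Ext
  refine and_congr Iff.rfl (forall_congr' fun m => ?_)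
  rw [← h_eq]
  exact Iff.rfl

/-- **Windows with the maximal number of almost primes along doubly exponential sequences.** -/
theorem result (K : ℕ) (c : ℝ) (hc : 1 < c) :
    (∀ k : ℕ, ∃ T : Finset ℕ, Extremal k T) ∧
    (∀ s : ℝ, s < 1 → ∃ κ : ℝ, 0 < κ ∧ ∀ (k : ℕ → ℕ) (T : ℕ → Finset ℕ),
      (∀ n, 1 ≤ k n ∧ k n ≤ K ∧ Extremal (k n) (T n)) →
      ∀ U : Set ℝ, IsOpen U → (U ∩ Set.Ioi 1).Nonempty →
      ENNReal.ofReal s ≤ dimH {θ : ℝ | θ ∈ U ∧ 1 < θ ∧ ∃ N : ℕ, ∀ n : ℕ, N ≤ n →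
        rough κ (k n) ⌊θ ^ (c ^ n)⌋₊ = T n}) ∧
    ∀ (k : ℕ → ℕ) (T : ℕ → Finset ℕ), (∀ n, 1 ≤ k n ∧ k n ≤ K ∧ Extremal (k n) (T n)) →
      ∀ U : Set ℝ, IsOpen U → (U ∩ Set.Ioi 1).Nonempty →
      dimH {θ : ℝ | θ ∈ U ∧ 1 < θ ∧ ∃ κ : ℝ, 0 < κ ∧ ∃ N : ℕ, ∀ n : ℕ, N ≤ n →
        rough κ (k n) ⌊θ ^ (c ^ n)⌋₊ = T n} = 1 := by
  obtain ⟨h1, h2⟩ := Pool.Agent.X119.Mil.windows K c hc
  refine ⟨fun k => ?_, fun s hs => ?_, fun k T hT U hU hne => ?_⟩
  · obtain ⟨T, hT⟩ := Pool.Agent.X119.Mil.exists_ext k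
    exact ⟨T, (ext_iff k T).2 hT⟩
  · obtain ⟨κ, hκ, h⟩ := h1 s hs
    refine ⟨κ, hκ, fun k T hT U hU hne => ?_⟩
    exact h k T (fun n => ⟨(hT n).1, (hT n).2.1, (ext_iff _ _).1 (hT n).2.2⟩) U hU hne
  · exact h2 k T (fun n => ⟨(hT n).1, (hT n).2.1, (ext_iff _ _).1 (hT n).2.2⟩) U hU hne

end Pool.Agent.Results.MP_cbf366_nt.MillsSequences
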