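import Mathlib
import Pool.Agent.X34.E.E27
import Pool.Agent.X34.E.E4

set_option autoImplicit false

/-!
# Primes in translates of sieve windows with 45 unsifted elements: the right order, everywhere

Let `h_j(k)` be the number of integers in `(j, j + k]` without a prime factor `≤ k`. If `h_j(k) ≥ 45`, then at least
`c X / (log X)^45` of the `x ≤ X` with `x ≡ j` modulo all primes `≤ k` are such that `(x, x + k]` contains at least two
primes (starting files, `SieveCounts45`: `X ^ (1 - ε)` of the `x`). The pattern of the primes is exact, the other 45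
numbers are free of small prime factors; the pattern occurs with both bounds of this order in ALL intervals around a
positive proportion of the integers, of all lengths from `K (log X)^45` on; and it occurs along arbitrarily long narrow
progressions.

Proof: the count of the right order for 45 forms (engine E of helper34, files `Pool.Agent.X34.E`, which uses the starting
library's theorem for 45 forms), the passage to all windows (starting library, `Pool.Agent.W123.RU.sieve_regular`) and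
the passage to narrow progressions (starting library, `Pool.Agent.Y827`).
-/

namespace Pool.Agent.Results.MP_cbf366_nt.RightOrderInWindows

/-- `h_j(k)`: the number of integers in `(j, j + k]` without a prime factor `≤ k` -/
noncomputable def h (j k : ℕ) : ℕ := Set.ncard {n : ℕ | j < n ∧ n ≤ j + k ∧ ∀ p : ℕ, p.Prime → p ≤ k → ¬ p ∣ n}

/-- `S` is a set of 45 of the `t` in `(0, k]` for which `j + t` has no prime factor `≤ k` -/
def Unsifted (j k : ℕ) (S : Finset ℕ) : Prop :=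
  S.card = 45 ∧ ∀ t ∈ S, 1 ≤ t ∧ t ≤ k ∧ ∀ p : ℕ, p.Prime → p ≤ k → ¬ p ∣ j + t

/-- `x ≡ j` modulo all primes `≤ k` and the primes in `(x, x + k]` are the `x + t`, `t ∈ B` -/
def Exactly (j k : ℕ) (B : Finset ℕ) (x : ℕ) : Prop :=
  (∀ p : ℕ, p.Prime → p ≤ k → x ≡ j [MOD p]) ∧ ∀ t : ℕ, 1 ≤ t → t ≤ k → ((x + t).Prime ↔ t ∈ B)

/-- moreover the `x + t`, `t ∈ S`, have no prime factor `≤ y` -/
def Sifted (j k : ℕ) (S B : Finset ℕ) (y : ℝ) (x : ℕ) : Prop :=
  Exactly j k B x ∧ ∀ t ∈ S, ∀ p : ℕ, p.Prime → (p : ℝ) ≤ y → ¬ p ∣ x + t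

/-- the number of the elements of the interval `(u, v]` with the property `A` -/
noncomputable def count (A : ℕ → Prop) (u v : ℕ) : ℕ := Set.ncard {x : ℕ | u < x ∧ x ≤ v ∧ A x}

/-- a set of 45 unsifted elements -/
theorem exists_S {j k : ℕ} (hh : 45 ≤ h j k) : ∃ S, Unsifted j k S := by
  classical
  have hfin : {n : ℕ | j < n ∧ n ≤ j + k ∧ ∀ p : ℕ, p.Prime → p ≤ k → ¬ p ∣ n}.Finite :=
    (Set.finite_Ioc j (j + k)).subset fun n hn => ⟨hn.1, hn.2.1⟩
  unfold h at hh
  rw [Set.ncard_eq_toFinset_card _ hfin] at hh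
  obtain ⟨T, hT, hT45⟩ := Finset.exists_subset_card_eq hh
  have hmem : ∀ n ∈ T, j < n ∧ n ≤ j + k ∧ ∀ p : ℕ, p.Prime → p ≤ k → ¬ p ∣ n := fun n hn => by
    have := hT hn
    rwa [Set.Finite.mem_toFinset] at this
  refine ⟨T.image (fun n => n - j), ?_, ?_⟩
  · rw [Finset.card_image_of_injOn, hT45]
    intro a ha b hb hab
    have h1 := (hmem a ha).1
    have h2 := (hmem b hb).1
    simp only at hab
    omega
  · intro t ht
    obtain ⟨n, hn, rfl⟩ := Finset.mem_image.1 ht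
    obtain ⟨h1, h2, h3⟩ := hmem n hn
    refine ⟨by omega, by omega, ?_⟩
    rw [show j + (n - j) = n by omega]
    exact h3

/-- (1) If `h_j(k) ≥ 45`, then for all large `X` at least `c X / (log X)^45` of the `x ≤ X` with `x ≡ j` modulo all
primes `≤ k` are such that `(x, x + k]` contains at least two primes.

(2) If `h_j(k) ≥ 45`, then there is a set `B` of at least two elements of `(0, k]` such that for every `l` there are `C`
and arbitrarily large `N`, and a difference `1 ≤ d ≤ (log N)^C`, for which at least `N / (log N)^C` of the `x ≤ N` have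
the property: for all `l` numbers `x' = x, x + d, ..., x + (l - 1) d` one has `x' ≡ j` modulo all primes `≤ k` and the
primes in `(x', x' + k]` are exactly the `x' + t`, `t ∈ B`.

(3) There is `s > 0` such that for all `j, k` and every set `S` of 45 unsifted `t` in `(0, k]` there are
`c, C, K, κ > 0` such that for all large `X` there is `B ⊆ S` with at least two elements for which at least `κ X` of the
integers `n` in `(X, 4 X]` have the property: for every interval `(u, v]` with `u ≤ n ≤ v` and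
`K (log X)^45 ≤ v - u ≤ n` the number of the `x` in `(u, v]` with `x ≡ j` modulo all primes `≤ k` for which the primes
in `(x, x + k]` are exactly the `x + t`, `t ∈ B`, and the `x + t`, `t ∈ S`, have no prime factor `≤ X ^ s`, is between
`c (v - u) / (log X)^45` and `C (v - u) / (log X)^45`. -/
theorem result :
    (∀ j k : ℕ, 45 ≤ h j k → ∃ c : ℝ, 0 < c ∧ ∀ᶠ X : ℕ in Filter.atTop,
      c * (X / Real.log X ^ 45) ≤ (Set.ncard {x : ℕ | 1 ≤ x ∧ x ≤ X ∧ (∀ p : ℕ, p.Prime → p ≤ k → x ≡ j [MOD p]) ∧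
        Nat.primeCounting x + 2 ≤ Nat.primeCounting (x + k)} : ℝ)) ∧
    (∀ j k : ℕ, 45 ≤ h j k → ∃ B ⊆ Finset.Icc 1 k, 2 ≤ B.card ∧ ∀ l : ℕ, ∃ C : ℕ, ∃ᶠ N : ℕ in Filter.atTop,
      ∃ d : ℕ, 1 ≤ d ∧ (d : ℝ) ≤ Real.log N ^ C ∧
        (N : ℝ) / Real.log N ^ C ≤
          (Set.ncard {x : ℕ | 1 ≤ x ∧ x ≤ N ∧ ∀ i < l, Exactly j k B (x + i * d)} : ℝ)) ∧
    ∃ s : ℝ, 0 < s ∧ ∀ (j k : ℕ) (S : Finset ℕ), Unsifted j k S →
      ∃ c C K κ : ℝ, 0 < c ∧ 0 < C ∧ 0 < K ∧ 0 < κ ∧ ∀ᶠ X : ℕ in Filter.atTop, ∃ B ⊆ S, 2 ≤ B.card ∧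
        κ * X ≤ (Set.ncard {n : ℕ | X < n ∧ n ≤ 4 * X ∧ ∀ u v : ℕ, u ≤ n → n ≤ v →
          K * Real.log X ^ 45 ≤ (v : ℝ) - u → (v : ℝ) - u ≤ n →
            c * (((v : ℝ) - u) / Real.log X ^ 45) ≤ (count (Sifted j k S B ((X : ℝ) ^ s)) u v : ℝ) ∧
            (count (Sifted j k S B ((X : ℝ) ^ s)) u v : ℝ) ≤ C * (((v : ℝ) - u) / Real.log X ^ 45)} : ℝ) := by
  have hE := Pool.Agent.X34.E.dhl45R
  refine ⟨fun j k hh => ?_, fun j k hh => ?_, ?_⟩
  · obtain ⟨S, hS⟩ := exists_S hh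
    obtain ⟨c, hc, hev⟩ := Pool.Agent.X34.E.win_count hE j k S hS.1 hS.2
    refine ⟨c, hc, ?_⟩
    filter_upwards [hev] with X hX
    obtain ⟨B, hB, hB2, hcount⟩ := hX
    refine hcount.trans ?_
    rw [Nat.cast_le]
    apply Set.ncard_le_ncard
    · rintro n ⟨h1, h2, h3⟩
      exact ⟨h1, h2, h3.1, h3.two hS.2 hB hB2⟩
    · exact (Set.finite_Icc 1 X).subset fun m hm => ⟨hm.1, hm.2.1⟩
  · obtain ⟨S, hS⟩ := exists_S hh
    obtain ⟨B, hB, hB2, h1⟩ := Pool.Agent.X34.E.win_narrow hE j k S hS.1.ge hS.2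
    refine ⟨B, fun t ht => ?_, hB2, fun l => ?_⟩
    · have := hS.2 t (hB ht)
      exact Finset.mem_Icc.2 ⟨this.1, this.2.1⟩
    · obtain ⟨C, hC⟩ := h1 l
      refine ⟨C, hC.mono ?_⟩
      rintro N ⟨d, hd1, hd2, hd3⟩
      refine ⟨d, hd1, hd2, hd3.trans ?_⟩
      rw [Nat.cast_le]
      apply Set.ncard_le_ncard
      · rintro n ⟨h2, h3, h4⟩
        exact ⟨h2, h3, fun i hi => ⟨(h4 i hi).1, (h4 i hi).2.1⟩⟩
      · exact (Set.finite_Icc 1 N).subset fun m hm => ⟨hm.1, hm.2.1⟩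
  · obtain ⟨s, hs, h1⟩ := Pool.Agent.X34.E.win_regular hE
    refine ⟨s, hs, fun j k S hS => ?_⟩
    obtain ⟨c, C, K, κ, hc, hC, hK, hκ, hev⟩ := h1 j k S hS.1 hS.2
    refine ⟨c, C, K, κ, hc, hC, hK, hκ, ?_⟩
    filter_upwards [hev] with X hX
    obtain ⟨B, hB, hB2, hcount⟩ := hX
    refine ⟨B, hB, hB2, hcount.trans ?_⟩
    rw [Nat.cast_le]
    apply Set.ncard_le_ncard
    · rintro n ⟨h2, h3, h4⟩
      refine ⟨h2, h3, fun u v hu hv h5 h6 => ?_⟩
      have e : {x : ℕ | u < x ∧ x ≤ v ∧ Sifted j k S B ((X : ℝ) ^ s) x} =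
          {x : ℕ | u < x ∧ x ≤ v ∧ Pool.Agent.X34.E.Win j k S B ((X : ℝ) ^ s) x} := by
        ext x
        simp only [Set.mem_setOf_eq, Sifted, Exactly, Pool.Agent.X34.E.Win, and_assoc]
      unfold count
      rw [e]
      exact h4 u v hu hv h5 h6
    · exact (Set.finite_Iic (4 * X)).subset fun m hm => hm.2.1

end Pool.Agent.Results.MP_cbf366_nt.RightOrderInWindows
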